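import Pool.Agent.Helper58_MOO.Stmts

set_option autoImplicit false

open Pool.Agent.Helper69_LOTS Cardinal

namespace Pool.Agent.MOO.H21

open Node Pool.Agent.MOO

/-- A tree with countable levels is enumerated by `ω₁`. -/
theorem tree_enum {T : Set Node} (hT : AT T) : ∃ e : Om → Node, ∀ x ∈ T, ∃ α, e α = x := by
  have h1 : ∀ δ : Om, ∃ f : Node → ℕ, Set.InjOn f {s | s ∈ T ∧ s.ht = δ} := fun δ =>
    (Set.countable_iff_exists_injOn).1 (hT.lev δ)
  choose f hf using h1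
  have h2 : #(Om × ℕ) ≤ #Om := by
    have h3 : #Om = ℵ₁ := by
      rw [Cardinal.mk_toType, Cardinal.card_ord]
    rw [Cardinal.mk_prod, Cardinal.lift_id, Cardinal.lift_id, h3, Cardinal.mk_nat]
    exact (Cardinal.mul_aleph0_eq (Cardinal.aleph0_le_aleph 1)).le
  obtain ⟨g⟩ := h2
  let i : {x // x ∈ T} → Om := fun x => g (x.1.ht, f x.1.ht x.1)
  have hi : Function.Injective i := by
    rintro ⟨x, hx⟩ ⟨y, hy⟩ hxy
    have h4 := g.injective hxy
    simp only [Prod.mk.injEq] at h4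
    obtain ⟨h5, h6⟩ := h4
    rw [Subtype.mk.injEq]
    rw [← h5] at h6
    exact hf x.ht ⟨hx, rfl⟩ ⟨hy, h5.symm⟩ h6
  obtain ⟨x₀, hx₀⟩ := hT.ne
  haveI : Nonempty {x // x ∈ T} := ⟨⟨x₀, hx₀⟩⟩
  refine ⟨fun α => (Function.invFun i α).1, fun x hx => ?_⟩
  obtain ⟨α, hα⟩ := Function.invFun_surjective hi ⟨x, hx⟩
  exact ⟨α, by simp only [hα]⟩

theorem psi (hCSL : CslStmt) (hPSP : PspStmt) (hPSD : PsdStmt) : PsiStmt := by
  classical
  intro hPFA T S hT hS hST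
  obtain ⟨C, hC⟩ := hCSL S hS
  have hTA : AT T := hT.toAT
  haveI hne : Nonempty (PS T S C) :=
    ⟨{ lev := ∅, gr := ∅, levC := by simp, mem := by simp, res := by simp, inj := by simp,
       sgn := by simp }⟩
  have hprop : Proper (PS T S C) := hPSP T S C hT hS hST hC.clb
  obtain ⟨e, he⟩ := tree_enum hTA
  -- the dense sets
  let D1 : Om → Set (PS T S C) := fun α => {p | ∃ ξ ∈ p.lev, α < ξ}
  let D2 : Node → Set (PS T S C) := fun x => {p | (∃ y, (x, y) ∈ p.gr) ∨ ∀ q ≤ p, x.ht ∉ q.lev}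
  have hD1 : ∀ α, Dns (D1 α) := by
    intro α p
    obtain ⟨β, hβ⟩ := Om_bdd (A := insert α (p.lev : Set Om)) ((p.lev.countable_toSet).insert α)
    obtain ⟨ξ, hξC, hξ⟩ := hC.clb.1 β
    have hlev : ∀ η ∈ p.lev, η < ξ := fun η hη => (hβ η (Set.mem_insert_of_mem _ hη)).trans hξ
    refine ⟨{ lev := insert ξ p.lev, gr := p.gr, levC := ?_, mem := ?_, res := ?_, inj := p.inj,
              sgn := p.sgn }, ?_, ?_⟩
    · intro η hη
      rcases Finset.mem_insert.1 hη with h | h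
      · rw [h]; exact hξC
      · exact p.levC η h
    · intro q hq
      obtain ⟨h1, h2, h3, h4⟩ := p.mem q hq
      exact ⟨h1, h2, h3, Finset.mem_insert_of_mem h4⟩
    · intro q hq η hη hle
      rcases Finset.mem_insert.1 hη with h | h
      · exfalso
        rw [h] at hle
        exact absurd (hlev _ (p.mem q hq).2.2.2) (not_lt.2 hle)
      · exact p.res q hq η h hle
    · exact ⟨ξ, Finset.mem_insert_self _ _, (hβ α (Set.mem_insert _ _)).trans hξ⟩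
    · exact ⟨Finset.subset_insert _ _, Finset.Subset.refl _⟩
  have hD2 : ∀ x ∈ T, Dns (D2 x) := by
    intro x hx p
    by_cases h : ∀ q ≤ p, x.ht ∉ q.lev
    · exact ⟨p, Or.inr h, le_rfl⟩
    · push Not at h
      obtain ⟨q, hqp, hq⟩ := h
      obtain ⟨q', hq', y, hy⟩ := hPSD T S C hTA hS hC q x hx hq
      exact ⟨q', Or.inl ⟨y, hy⟩, hq'.trans hqp⟩
  -- one sequence of dense sets indexed by Om: use Om ⊕ Om
  have hcard : #(Om ⊕ Om) ≤ #Om := by
    have h3 : ℵ₀ ≤ #Om := by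
      rw [Cardinal.mk_toType, Cardinal.card_ord]
      exact Cardinal.aleph0_le_aleph 1
    rw [Cardinal.mk_sum, Cardinal.lift_id]
    exact (Cardinal.add_eq_self h3).le
  obtain ⟨g⟩ := hcard
  obtain ⟨β₀, -⟩ := Om_bdd (Set.countable_empty (α := Om))
  haveI : Nonempty (Om ⊕ Om) := ⟨Sum.inl β₀⟩
  let D : Om → Set (PS T S C) := fun α =>
    match Function.invFun g α with
    | Sum.inl β => D1 β
    | Sum.inr β => if e β ∈ T then D2 (e β) else Set.univ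
  have hD : ∀ α, Dns (D α) := by
    intro α
    change Dns (match Function.invFun g α with
      | Sum.inl β => D1 β
      | Sum.inr β => if e β ∈ T then D2 (e β) else Set.univ)
    rcases Function.invFun g α with β | β
    · exact hD1 β
    · dsimp only
      split_ifs with h
      · exact hD2 _ h
      · exact fun p => ⟨p, trivial, le_rfl⟩
  obtain ⟨G, hGne, -, hdir, hGD⟩ := hPFA (PS T S C) hprop D hD
  have hsurj : Function.Surjective (Function.invFun g) := Function.invFun_surjective g.injective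
  have hG1 : ∀ α, ∃ p ∈ G, ∃ ξ ∈ p.lev, α < ξ := by
    intro α
    obtain ⟨β, hβ⟩ := hsurj (Sum.inl α)
    obtain ⟨p, hp, hpD⟩ := hGD β
    refine ⟨p, hp, ?_⟩
    have : p ∈ (match Function.invFun g β with
      | Sum.inl β => D1 β
      | Sum.inr β => if e β ∈ T then D2 (e β) else Set.univ) := hpD
    rw [hβ] at this
    exact this
  have hG2 : ∀ x ∈ T, ∃ p ∈ G, (∃ y, (x, y) ∈ p.gr) ∨ ∀ q ≤ p, x.ht ∉ q.lev := by
    intro x hx
    obtain ⟨γ, hγ⟩ := he x hx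
    obtain ⟨β, hβ⟩ := hsurj (Sum.inr γ)
    obtain ⟨p, hp, hpD⟩ := hGD β
    refine ⟨p, hp, ?_⟩
    have : p ∈ (match Function.invFun g β with
      | Sum.inl β => D1 β
      | Sum.inr β => if e β ∈ T then D2 (e β) else Set.univ) := hpD
    rw [hβ] at this
    dsimp only at this
    rw [hγ, if_pos hx] at this
    exact this
  let E : Set Om := {ξ | ∃ p ∈ G, ξ ∈ p.lev}
  have hval : ∀ x ∈ T, x.ht ∈ E → ∃ y, ∃ p ∈ G, (x, y) ∈ p.gr := by
    rintro x hx ⟨p1, hp1, hxp1⟩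
    obtain ⟨p2, hp2, h | h⟩ := hG2 x hx
    · obtain ⟨y, hy⟩ := h
      exact ⟨y, p2, hp2, hy⟩
    · exfalso
      obtain ⟨r, hr, hr1, hr2⟩ := hdir p1 hp1 p2 hp2
      exact h r hr2 (hr1.1 hxp1)
  let ψ : Node → Node := fun x =>
    if h : ∃ y, ∃ p ∈ G, (x, y) ∈ p.gr then Classical.choose h else x
  have hψ : ∀ x y, ∀ p ∈ G, (x, y) ∈ p.gr → ψ x = y := by
    intro x y p hp hxy
    have hex : ∃ y, ∃ p ∈ G, (x, y) ∈ p.gr := ⟨y, p, hp, hxy⟩
    have h1 : ψ x = Classical.choose hex := dif_pos hex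
    obtain ⟨q, hq, hxq⟩ := Classical.choose_spec hex
    rw [h1]
    obtain ⟨r, hr, hr1, hr2⟩ := hdir p hp q hq
    exact (r.inj _ (hr2.2 hxq) _ (hr1.2 hxy)).1 rfl
  have hψ' : ∀ x ∈ T, x.ht ∈ E → ∃ p ∈ G, (x, ψ x) ∈ p.gr := by
    intro x hx hxE
    obtain ⟨y, p, hp, hxy⟩ := hval x hx hxE
    exact ⟨p, hp, by rw [hψ x y p hp hxy]; exact hxy⟩
  refine ⟨E, ψ, ⟨?_, ?_, ?_⟩, ?_⟩
  · intro α
    obtain ⟨p, hp, ξ, hξ, hα⟩ := hG1 α
    exact ⟨ξ, ⟨p, hp, hξ⟩, hα⟩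
  · intro s hs hsE
    obtain ⟨p, hp, hsp⟩ := hψ' s hs hsE
    have := p.mem _ hsp
    exact ⟨this.2.1, this.2.2.1⟩
  · intro s hs hsE ξ hξE hξ
    obtain ⟨p, hp, hsp⟩ := hψ' s hs hsE
    obtain ⟨q, hq, hξq⟩ := hξE
    obtain ⟨r, hr, hr1, hr2⟩ := hdir p hp q hq
    exact hψ _ _ r hr (r.res _ (hr1.2 hsp) ξ (hr2.1 hξq) hξ)
  · intro s hs t ht hsE htE hst
    obtain ⟨p, hp, hsp⟩ := hψ' s hs hsE
    obtain ⟨q, hq, htq⟩ := hψ' t ht htE
    obtain ⟨r, hr, hr1, hr2⟩ := hdir p hp q hq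
    exact r.sgn _ (hr1.2 hsp) _ (hr2.2 htq) hst

end Pool.Agent.MOO.H21
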