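import Pool.Agent.Helper58_MOO.Stmts

set_option autoImplicit false

open Pool.Agent.Helper69_LOTS

namespace Pool.Agent.MOO.H21

open Node Pool.Agent.MOO

theorem low_countable {T : Set Node} (hT : AT T) (δ : Om) : {x | x ∈ T ∧ x.ht < δ}.Countable := by
  refine ((Om_Iio_countable δ).biUnion (fun η _ => hT.lev η)).mono ?_
  rintro x ⟨hx, hxd⟩
  exact Set.mem_biUnion (show x.ht ∈ Set.Iio δ from hxd) ⟨hx, rfl⟩

theorem xst : XstStmt := by
  intro T X hT hXT hX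
  set S : Set Node := {u | u ∈ T ∧ ¬ {x | x ∈ X ∧ u ≤ x}.Countable} with hS
  have hex : ∀ s ∈ S, ∃ x ∈ X, s ≤ x := by
    intro s hs
    by_contra hcon
    push Not at hcon
    apply hs.2
    have : {x | x ∈ X ∧ s ≤ x} = ∅ := by
      ext x
      simp only [Set.mem_ofPred_eq, Set.mem_empty_iff_false, iff_false, not_and]
      exact fun hx => hcon x hx
    rw [this]
    exact Set.countable_empty
  refine ⟨S, fun s hs => hs.1, ⟨?_, ?_, ?_, ?_, ?_⟩, ?_, hex⟩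
  · intro s hs ξ
    refine ⟨hT.down s hs.1 ξ, fun hc => hs.2 (hc.mono ?_)⟩
    rintro x ⟨hx, hsx⟩
    exact ⟨hx, (res_le s ξ).trans hsx⟩
  · intro δ
    exact (hT.lev δ).mono (show {s | s ∈ S ∧ s.ht = δ} ⊆ {s | s ∈ T ∧ s.ht = δ} from
      fun s hs => ⟨hs.1.1, hs.2⟩)
  · intro s hs δ hδ
    by_contra hcon
    push Not at hcon
    apply hs.2
    have h1 : {x | x ∈ X ∧ s ≤ x} ⊆ {x | x ∈ T ∧ x.ht < δ} ∪
        ⋃ t ∈ {t | t ∈ T ∧ t.ht = δ}, {x | x ∈ X ∧ s ≤ t ∧ t ≤ x} := by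
      rintro x ⟨hx, hsx⟩
      rcases lt_or_ge x.ht δ with h | h
      · exact Or.inl ⟨hXT hx, h⟩
      · right
        refine Set.mem_biUnion (x := x.res δ) ⟨hT.down x (hXT hx) δ, res_ht_of_le h⟩ ?_
        exact ⟨hx, le_res hsx hδ, res_le x δ⟩
    refine Set.Countable.mono h1 ((low_countable hT δ).union ?_)
    refine (hT.lev δ).biUnion ?_
    rintro t ⟨htT, htd⟩
    by_cases hst : s ≤ t
    · have h2 : t ∉ S := fun htS => hcon t htS hst htd
      have h3 : {x | x ∈ X ∧ t ≤ x}.Countable := by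
        by_contra h4
        exact h2 ⟨htT, h4⟩
      exact h3.mono (show {x | x ∈ X ∧ s ≤ t ∧ t ≤ x} ⊆ {x | x ∈ X ∧ t ≤ x} from
        fun x hx => ⟨hx.1, hx.2.2⟩)
    · refine Set.countable_empty.mono ?_
      rintro x ⟨_, h, _⟩
      exact absurd h hst
  · have hne : X.Nonempty := by
      by_contra hcon
      rw [Set.not_nonempty_iff_eq_empty] at hcon
      exact hX (by rw [hcon]; exact Set.countable_empty)
    obtain ⟨x₀, hx₀⟩ := hne
    obtain ⟨o, -, ho⟩ := Om_least (p := fun _ => True) ⟨x₀.ht, trivial⟩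
    have ho' : ∀ ξ : Om, o ≤ ξ := fun ξ => not_lt.1 fun h => ho ξ h trivial
    refine ⟨x₀.res o, hT.down _ (hXT hx₀) _, fun hc => hX (hc.mono ?_)⟩
    intro x hx
    refine ⟨hx, ?_⟩
    refine ⟨?_, ?_⟩
    · rw [res_ht_of_le (ho' _)]; exact ho' _
    · intro η hη
      rw [res_ht_of_le (ho' _)] at hη
      exact absurd hη (not_lt.2 (ho' η))
  · rintro ⟨b, hb⟩
    exact hT.nobr ⟨b, fun δ => (hb δ).1⟩
  · rintro w ⟨s, hs, t, ht, hw⟩
    obtain ⟨x, hx, hsx⟩ := hex s hs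
    obtain ⟨y, hy, hty⟩ := hex t ht
    exact ⟨x, hx, y, hy, hw.mono hsx hty⟩

end Pool.Agent.MOO.H21
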